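import Pool.Agent.K1H35.JA.Stm

set_option autoImplicit false

/-! Heavy walks contain heavy closed walks: `t_SL0`. -/

namespace Pool.Agent.K1H94.JA

open Finset Pool.Agent.K1H35.JA

/-- walk with labels `none` and `i`, with weight and set of visited states -/
inductive RW {n k : ℕ} (A : Aut n k) (i : Fin k) : Fin n → ℕ → Finset (Fin n) → Fin n → Prop
  | nil (q : Fin n) : RW A i q 0 {q} q
  | cons {q r s : Fin n} {a : Option (Fin k)} {δ w : ℕ} {U : Finset (Fin n)} :
      A.step q a r → vec a = δ • e i → δ ≤ 1 → RW A i r w U s → RW A i q (δ + w) (insert q U) s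

variable {n k : ℕ} {A : Aut n k} {i : Fin k}

lemma split {a : Option (Fin k)} {x : Fin k → ℕ} {W : ℕ} (h : vec a + x = W • e i) :
    ∃ δ w : ℕ, vec a = δ • e i ∧ δ ≤ 1 ∧ x = w • e i ∧ W = δ + w := by
  cases a with
  | none =>
    refine ⟨0, W, ?_, zero_le_one, ?_, (zero_add W).symm⟩
    · rw [zero_smul]; rfl
    · rw [← h]
      show x = 0 + x
      rw [zero_add]
  | some j =>
    have h1 : ∀ t, e j t + x t = W * e i t := fun t => congrFun h t
    have hj : j = i := by
      by_contra hne
      have h2 := h1 j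
      unfold e at h2
      rw [Pi.single_eq_same, Pi.single_eq_of_ne hne, mul_zero] at h2
      omega
    subst hj
    have h2 := h1 j
    unfold e at h2
    rw [Pi.single_eq_same, mul_one] at h2
    refine ⟨1, x j, ?_, le_refl _, ?_, h2.symm⟩
    · rw [one_smul]; rfl
    · funext t
      show x t = x j * e j t
      by_cases ht : t = j
      · subst ht
        unfold e
        rw [Pi.single_eq_same, mul_one]
      · have h3 := h1 t
        unfold e at h3 ⊢
        rw [Pi.single_eq_of_ne ht, mul_zero, zero_add] at h3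
        rw [Pi.single_eq_of_ne ht, mul_zero, h3]

lemma toRW {q r : Fin n} {x : Fin k → ℕ} (h : Reach A q x r) :
    ∀ W : ℕ, x = W • e i → ∃ U, RW A i q W U r := by
  induction h with
  | nil q =>
    intro W hW
    have h1 := congrFun hW i
    have h2 : (0 : ℕ) = W := by
      have h3 : (W • e i) i = W := by
        show W * e i i = W
        unfold e
        rw [Pi.single_eq_same, mul_one]
      rw [h3] at h1
      exact h1
    subst h2
    exact ⟨{q}, RW.nil q⟩
  | cons hs _ ih =>
    intro W hW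
    obtain ⟨δ, w, h1, h2, h3, h4⟩ := split hW
    obtain ⟨U, hU⟩ := ih w h3
    subst h4
    exact ⟨_, RW.cons hs h1 h2 hU⟩

lemma toReach {q r : Fin n} {w : ℕ} {U : Finset (Fin n)} (h : RW A i q w U r) :
    Reach A q (w • e i) r := by
  induction h with
  | nil q => rw [zero_smul]; exact Reach.nil q
  | cons hs hv _ _ ih =>
    rw [add_smul, ← hv]
    exact Reach.cons hs ih

lemma start_mem {q r : Fin n} {w : ℕ} {U : Finset (Fin n)} (h : RW A i q w U r) : q ∈ U := by
  cases h with
  | nil => exact mem_singleton_self _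
  | cons => exact mem_insert_self _ _

lemma trans {q s t : Fin n} {x y : Fin k → ℕ} (h : Reach A q x s) (h' : Reach A s y t) :
    Reach A q (x + y) t := by
  induction h with
  | nil q => rwa [zero_add]
  | cons hs _ ih => rw [add_assoc]; exact Reach.cons hs (ih h')

/-- decomposition at the last visit of `p` -/
lemma dec {q r : Fin n} {w : ℕ} {U : Finset (Fin n)} (h : RW A i q w U r) (p : Fin n) :
    p ∈ U → ∃ w0 : ℕ, Reach A q (w0 • e i) p ∧ ((r = p ∧ w = w0) ∨
      ∃ (a : Option (Fin k)) (q' : Fin n) (δ w' : ℕ) (U' : Finset (Fin n)), A.step p a q' ∧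
        vec a = δ • e i ∧ δ ≤ 1 ∧ RW A i q' w' U' r ∧ p ∉ U' ∧ U' ⊆ U ∧ w = w0 + δ + w') := by
  induction h with
  | nil q =>
    intro hp
    rw [mem_singleton] at hp
    subst hp
    exact ⟨0, by rw [zero_smul]; exact Reach.nil p, Or.inl ⟨rfl, rfl⟩⟩
  | @cons q r' s a δ w U hs hv hδ hw ih =>
    intro hp
    by_cases hpU : p ∈ U
    · obtain ⟨w0, h1, h2⟩ := ih hpU
      refine ⟨δ + w0, ?_, ?_⟩
      · rw [add_smul, ← hv]
        exact Reach.cons hs h1
      · rcases h2 with ⟨h2, h3⟩ | ⟨a', q', δ', w', U', h3, h4, h5, h6, h7, h8, h9⟩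
        · exact Or.inl ⟨h2, by rw [h3]⟩
        · exact Or.inr ⟨a', q', δ', w', U', h3, h4, h5, h6, h7,
            h8.trans (subset_insert _ _), by rw [h9]; ring⟩
    · rcases mem_insert.1 hp with rfl | hp
      · exact ⟨0, by rw [zero_smul]; exact Reach.nil p, Or.inr ⟨a, r', δ, w, U, hs, hv, hδ, hw, hpU,
          subset_insert _ _, by ring⟩⟩
      · exact absurd hp hpU

lemma main (T : ℕ) : ∀ (c : ℕ) (V : Finset (Fin n)), V.card = c → ∀ (q r : Fin n) (w : ℕ)
    (U : Finset (Fin n)), RW A i q w U r → U ⊆ V → c * (T + 1) ≤ w →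
    ∃ (u : Fin n) (W1 W2 W3 : ℕ), Reach A q (W1 • e i) u ∧ Reach A u (W2 • e i) u ∧
      Reach A u (W3 • e i) r ∧ w = W1 + W2 + W3 ∧ T ≤ W2 := by
  intro c
  induction c with
  | zero =>
    intro V hV q r w U h hU _
    rw [Finset.card_eq_zero] at hV
    subst hV
    exact absurd (hU (start_mem h)) (by simp)
  | succ c ih =>
    intro V hV q r w U h hU hw
    have hqV : q ∈ V := hU (start_mem h)
    obtain ⟨w0, h1, h2⟩ := dec h q (start_mem h)
    by_cases hT : T ≤ w0
    · rcases h2 with ⟨h2, h3⟩ | ⟨a, q', δ, w', U', h3, h4, h5, h6, h7, h8, h9⟩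
      · subst h2
        exact ⟨r, 0, w0, 0, by rw [zero_smul]; exact Reach.nil r, h1,
          by rw [zero_smul]; exact Reach.nil r, by omega, hT⟩
      · refine ⟨q, 0, w0, δ + w', by rw [zero_smul]; exact Reach.nil q, h1, ?_, by omega, hT⟩
        rw [add_smul, ← h4]
        exact Reach.cons h3 (toReach h6)
    · rw [not_le] at hT
      have hw2 : c * (T + 1) + T + 1 ≤ w := by
        calc c * (T + 1) + T + 1 = (c + 1) * (T + 1) := by ring
          _ ≤ w := hw
      rcases h2 with ⟨h2, h3⟩ | ⟨a, q', δ, w', U', h3, h4, h5, h6, h7, h8, h9⟩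
      · exfalso
        have : 0 ≤ c * (T + 1) := Nat.zero_le _
        omega
      · obtain ⟨u, W1, W2, W3, g1, g2, g3, g4, g5⟩ := ih (V.erase q)
          (by rw [card_erase_of_mem hqV, hV]; rfl) q' r w' U' h6
          (fun x hx => mem_erase.2 ⟨fun e => h7 (e ▸ hx), hU (h8 hx)⟩) (by omega)
        refine ⟨u, w0 + δ + W1, W2, W3, ?_, g2, g3, by omega, g5⟩
        rw [add_smul, add_smul, add_assoc, ← h4]
        exact trans h1 (Reach.cons h3 g1)

theorem t_SL0 : S_SL0 := by
  intro n k T W A i q r hW h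
  obtain ⟨U, hU⟩ := toRW (i := i) h W rfl
  exact main T n Finset.univ (by rw [Finset.card_univ, Fintype.card_fin]) q r W U hU
    (Finset.subset_univ _) hW

end Pool.Agent.K1H94.JA
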