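import Pool.Agent.K1H35.JA.Stm2

/-! Piece LOWK of the project JA: jumping automata with large state complexity, `k` counters.
(Adapted from the file of helper10 for one counter.) -/

set_option autoImplicit false

namespace Pool.Agent.K1H94.JA.LOWK

open Finset Pool.Agent.K1H35.JA

/-- names for the states -/
lemma exists_code (n k : ℕ) (V : Finset ℕ) (h : k * ∑ p ∈ V, p + 1 ≤ n) :
    ∃ (s0 : Fin n) (c : Fin k → ℕ → ℕ → Fin n), (∀ i, ∀ p ∈ V, ∀ j < p, c i p j ≠ s0) ∧
      ∀ i, ∀ p ∈ V, ∀ j < p, ∀ i', ∀ p' ∈ V, ∀ j' < p', c i p j = c i' p' j' →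
        i = i' ∧ p = p' ∧ j = j' := by
  set T : Finset (Σ _ : ℕ, ℕ) := V.sigma (fun p => Finset.range p) with hT
  have hc : Fintype.card (Option (Fin k × T)) ≤ Fintype.card (Fin n) := by
    rw [Fintype.card_option, Fintype.card_prod, Fintype.card_fin, Fintype.card_coe,
      Fintype.card_fin, hT, Finset.card_sigma]
    simpa using h
  obtain ⟨ι⟩ := Function.Embedding.nonempty_of_card_le hc
  have hm : ∀ p ∈ V, ∀ j < p, (⟨p, j⟩ : Σ _ : ℕ, ℕ) ∈ T := by
    intro p hp j hj
    rw [hT, Finset.mem_sigma]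
    exact ⟨hp, Finset.mem_range.2 hj⟩
  classical
  refine ⟨ι none, fun i p j => if h : (⟨p, j⟩ : Σ _ : ℕ, ℕ) ∈ T then ι (some (i, ⟨_, h⟩))
    else ι none, ?_, ?_⟩
  · intro i p hp j hj
    simp only
    rw [dif_pos (hm p hp j hj)]
    intro he
    exact absurd (ι.injective he) (by simp)
  · intro i p hp j hj i' p' hp' j' hj' he
    simp only at he
    rw [dif_pos (hm p hp j hj), dif_pos (hm p' hp' j' hj')] at he
    have h1 := ι.injective he
    rw [Option.some_inj, Prod.mk.injEq, Subtype.mk.injEq] at h1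
    obtain ⟨h0, h1⟩ := h1
    have h2 := congrArg Sigma.fst h1
    simp only at h2
    subst h2
    refine ⟨h0, rfl, ?_⟩
    have h3 := congrArg (fun x : Σ _ : ℕ, ℕ => x.2) h1
    exact h3

/-- the automaton -/
def AA {n k : ℕ} (V : Finset ℕ) (s0 : Fin n) (c : Fin k → ℕ → ℕ → Fin n) : Aut n k where
  step q a r := (q = s0 ∧ a = none ∧ ∃ i0, ∃ p ∈ V, r = c i0 p 0) ∨
    (∃ i0, ∃ p ∈ V, ∃ j < p, ∃ i : Fin k, q = c i0 p j ∧ a = some i ∧
      r = c i0 p (if i = i0 then (j + 1) % p else j))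
  start := s0
  acc q := ∃ i0, ∃ p ∈ V, ∃ j < p, j ≠ 0 ∧ q = c i0 p j

section

variable {n k : ℕ} (V : Finset ℕ) (s0 : Fin n) (c : Fin k → ℕ → ℕ → Fin n)
  (h1 : ∀ i, ∀ p ∈ V, ∀ j < p, c i p j ≠ s0)
  (h2 : ∀ i, ∀ p ∈ V, ∀ j < p, ∀ i', ∀ p' ∈ V, ∀ j' < p', c i p j = c i' p' j' →
        i = i' ∧ p = p' ∧ j = j')

include h1 h2 in
lemma reach_c (q r : Fin n) (x : Fin k → ℕ) (h : Reach (AA V s0 c) q x r) :
    ∀ i0, ∀ p ∈ V, ∀ j < p, q = c i0 p j → r = c i0 p ((j + x i0) % p) := by
  induction h with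
  | nil q =>
    intro i0 p hp j hj hq
    rw [hq, Pi.zero_apply, add_zero, Nat.mod_eq_of_lt hj]
  | @cons q r s a x hs hr ih =>
    intro i0 p hp j hj hq
    rcases hs with ⟨e1, -, -⟩ | ⟨i0', p', hp', j', hj', i, e1, e2, e3⟩
    · exact absurd (hq.symm.trans e1) (h1 i0 p hp j hj)
    · obtain ⟨rfl, rfl, rfl⟩ := h2 i0 p hp j hj i0' p' hp' j' hj' (hq.symm.trans e1)
      subst e2
      by_cases hi : i = i0
      · subst hi
        rw [if_pos rfl] at e3
        have h3 := ih i p hp _ (Nat.mod_lt _ (by omega)) e3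
        rw [h3]
        congr 1
        simp only [Pi.add_apply, vec, e, Pi.single_eq_same]
        rw [Nat.mod_add_mod]
        congr 1
        ring
      · rw [if_neg hi] at e3
        have h3 := ih i0 p hp _ hj e3
        rw [h3]
        congr 1
        simp only [Pi.add_apply, vec, e]
        rw [Pi.single_eq_of_ne (Ne.symm hi), zero_add]

lemma reach_w (i0 : Fin k) (p : ℕ) (hp : p ∈ V) (w : List (Fin k)) : ∀ j < p,
    Reach (AA V s0 c) (c i0 p j) (pk w) (c i0 p ((j + w.count i0) % p)) := by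
  induction w with
  | nil =>
    intro j hj
    have e1 : pk ([] : List (Fin k)) = 0 := by
      funext i
      simp [pk]
    rw [e1, List.count_nil, add_zero, Nat.mod_eq_of_lt hj]
    exact Reach.nil _
  | cons i w ih =>
    intro j hj
    have e1 : pk (i :: w) = vec (some i) + pk w := by
      funext l
      simp only [pk, vec, e, Pi.add_apply, List.count_cons, Pi.single_apply, beq_iff_eq]
      by_cases h : i = l
      · subst h; simp; ring
      · rw [if_neg h, if_neg (Ne.symm h)]; ring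
    rw [e1]
    have hs : (AA V s0 c).step (c i0 p j) (some i) (c i0 p (if i = i0 then (j + 1) % p else j)) :=
      Or.inr ⟨i0, p, hp, j, hj, i, rfl, rfl, rfl⟩
    refine Reach.cons hs ?_
    have h3 : (if i = i0 then (j + 1) % p else j) < p := by
      split_ifs
      · exact Nat.mod_lt _ (by omega)
      · exact hj
    have h4 := ih _ h3
    have h5 : ((if i = i0 then (j + 1) % p else j) + w.count i0) % p =
        (j + (i :: w).count i0) % p := by
      rw [List.count_cons]
      by_cases hi : i = i0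
      · simp only [hi, if_true, beq_self_eq_true]
        rw [Nat.mod_add_mod]
        congr 1
        ring
      · simp [hi]
    rwa [h5] at h4

include h1 h2 in
lemma mem_SA (h0 : ∀ p ∈ V, 0 < p) (w : List (Fin k)) :
    pk w ∈ SA (AA V s0 c) ↔ ∃ i0, ∃ p ∈ V, ¬ p ∣ w.count i0 := by
  constructor
  · rintro ⟨q, ⟨i0, p, hp, j, hj, hj0, hq⟩, hr⟩
    have hst : (AA V s0 c).start = s0 := rfl
    rw [hst] at hr
    generalize hx : pk w = x at hr
    cases hr with
    | nil => exact absurd hq.symm (h1 i0 p hp j hj)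
    | @cons _ r _ a x' hs hr =>
      rcases hs with ⟨-, e2, i0', p', hp', e3⟩ | ⟨i0', p', hp', j', hj', i, e1, e2, e3⟩
      · subst e2
        have h5 : 0 < p' := h0 p' hp'
        have h4 := reach_c V s0 c h1 h2 _ _ _ hr i0' p' hp' 0 h5 e3
        rw [zero_add] at h4
        obtain ⟨rfl, rfl, rfl⟩ := h2 i0 p hp j hj i0' p' hp' _ (Nat.mod_lt _ h5) (hq.symm.trans h4)
        refine ⟨i0, p, hp, fun hd => hj0 ?_⟩
        have h6 : x' i0 = w.count i0 := by
          have := congrFun hx i0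
          simpa [pk, vec] using this.symm
        rw [h6]
        exact Nat.mod_eq_zero_of_dvd hd
      · exact absurd e1.symm (h1 i0' p' hp' j' hj')
  · rintro ⟨i0, p, hp, hd⟩
    have h5 : 0 < p := h0 p hp
    refine ⟨c i0 p (w.count i0 % p), ⟨i0, p, hp, _, Nat.mod_lt _ h5,
      fun h => hd (Nat.dvd_of_mod_eq_zero h), rfl⟩, ?_⟩
    have h6 := reach_w V s0 c i0 p hp w 0 h5
    rw [zero_add] at h6
    have hs : (AA V s0 c).step s0 none (c i0 p 0) := Or.inl ⟨rfl, rfl, i0, p, hp, rfl⟩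
    have h7 := Reach.cons hs h6
    have h8 : vec (none : Option (Fin k)) + pk w = pk w := by
      simp [vec]
    rw [h8] at h7
    exact h7

end

/-! ### the language -/

/-- a DFA which counts all letters -/
def MM (k Q : ℕ) : DFA (Fin k) (Fin k → ZMod Q) where
  step s a := s + Pi.single a 1
  start := 0
  accept := {s | s ≠ 0}

lemma evalFrom_MM (k Q : ℕ) (w : List (Fin k)) : ∀ s : Fin k → ZMod Q,
    (MM k Q).evalFrom s w = s + fun i => ((w.count i : ℕ) : ZMod Q) := by
  induction w with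
  | nil =>
    intro s
    funext i
    simp
  | cons a w ih =>
    intro s
    rw [DFA.evalFrom_cons, ih]
    funext i
    show s i + (Pi.single a 1 : Fin k → ZMod Q) i + ((w.count i : ℕ) : ZMod Q) =
      s i + (((a :: w).count i : ℕ) : ZMod Q)
    rw [List.count_cons]
    by_cases h : a = i
    · subst h
      rw [Pi.single_eq_same, beq_self_eq_true, if_pos rfl]
      push_cast
      ring
    · rw [Pi.single_eq_of_ne (Ne.symm h)]
      simp [h]

lemma mem_MM (k Q : ℕ) (w : List (Fin k)) :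
    w ∈ (MM k Q).accepts ↔ ∃ i, ¬ Q ∣ w.count i := by
  rw [DFA.mem_accepts]
  show (MM k Q).evalFrom 0 w ≠ 0 ↔ _
  rw [evalFrom_MM, zero_add, Ne, funext_iff, not_forall]
  refine exists_congr fun i => ?_
  rw [Pi.zero_apply, ZMod.natCast_eq_zero_iff]

lemma exists_word {k : ℕ} (c : Fin k → ℕ) : ∃ w : List (Fin k), ∀ i, w.count i = c i := by
  refine ⟨(∑ i, Multiset.replicate (c i) i).toList, fun i => ?_⟩
  rw [← Multiset.coe_count, Multiset.coe_toList, Multiset.count_sum']
  simp [Multiset.count_replicate]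

lemma card_le {k m Q : ℕ} (M : DFA (Fin k) (Fin m))
    (hM : ∀ w, w ∈ M.accepts ↔ ∃ i, ¬ Q ∣ w.count i) : Q ^ k ≤ m := by
  choose wd hwd using fun c : Fin k → ℕ => exists_word c
  have hinj : Function.Injective (fun c : Fin k → Fin Q => M.eval (wd fun i => (c i : ℕ))) := by
    intro c c' he
    simp only at he
    set u := wd fun i => Q - (c i : ℕ) with hu
    have e1 : M.eval (wd (fun i => (c i : ℕ)) ++ u) = M.eval (wd (fun i => (c' i : ℕ)) ++ u) := by
      unfold DFA.eval at he ⊢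
      rw [DFA.evalFrom_of_append, DFA.evalFrom_of_append, he]
    have e2 := hM (wd (fun i => (c i : ℕ)) ++ u)
    have e3 := hM (wd (fun i => (c' i : ℕ)) ++ u)
    rw [DFA.mem_accepts] at e2 e3
    rw [e1, e3] at e2
    have e4 : ¬ ∃ i, ¬ Q ∣ (wd (fun i => (c i : ℕ)) ++ u).count i := by
      rintro ⟨i, hi⟩
      apply hi
      rw [List.count_append, hwd, hu, hwd, Nat.add_sub_cancel' (c i).2.le]
    have e5 : ¬ ∃ i, ¬ Q ∣ (wd (fun i => (c' i : ℕ)) ++ u).count i := fun h => e4 (e2.1 h)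
    push Not at e5
    funext i
    have e6 := e5 i
    rw [List.count_append, hwd, hu, hwd] at e6
    have g1 := (c i).2
    have g2 := (c' i).2
    obtain ⟨t, ht⟩ := e6
    have h1 : t = 1 := by
      have a1 : 0 < Q * t := by omega
      have a2 : Q * t < Q * 2 := by omega
      have a3 : t < 2 := Nat.lt_of_mul_lt_mul_left a2
      have a4 : 0 < t := Nat.pos_of_mul_pos_left a1
      omega
    rw [h1, mul_one] at ht
    apply Fin.ext
    omega
  have := Fintype.card_le_of_injective _ hinj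
  simpa using this

theorem t_LOWK (hJL : S_JL) : S_LOWK := by
  intro n k V hk hV hne hn
  obtain ⟨s0, c, h1, h2⟩ := exists_code n k V hn
  have hpos : ∀ p ∈ V, 0 < p := fun p hp => (hV p hp).pos
  refine ⟨AA V s0 c, ?_⟩
  set Q := ∏ p ∈ V, p with hQ
  have hQ0 : Q ≠ 0 := by
    rw [hQ]
    exact Finset.prod_ne_zero_iff.2 fun p hp => (hpos p hp).ne'
  have : NeZero Q := ⟨hQ0⟩
  have hmem : ∀ w, w ∈ JL (AA V s0 c) ↔ ∃ i, ¬ Q ∣ w.count i := by
    intro w
    rw [hJL, mem_SA V s0 c h1 h2 hpos w]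
    refine exists_congr fun i => ?_
    constructor
    · rintro ⟨p, hp, hd⟩ h
      exact hd ((Finset.dvd_prod_of_mem (fun p => p) hp).trans h)
    · intro h
      by_contra hcon
      push Not at hcon
      exact h (Finset.prod_primes_dvd _ (fun p hp => (hV p hp).prime) hcon)
  have hacc : (MM k Q).accepts = JL (AA V s0 c) := by
    ext w
    rw [mem_MM, hmem]
  have hreg : (JL (AA V s0 c)).IsRegular := ⟨Fin k → ZMod Q, inferInstance, MM k Q, hacc⟩
  refine ⟨hreg, ?_⟩
  unfold sc
  refine le_csInf ?_ ?_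
  · refine ⟨Fintype.card (Fin k → ZMod Q), DFA.reindex (Fintype.equivFin (Fin k → ZMod Q))
      (MM k Q), ?_⟩
    rw [DFA.accepts_reindex, hacc]
  · rintro m ⟨M, hM⟩
    refine card_le M fun w => ?_
    rw [hM, hmem]

end Pool.Agent.K1H94.JA.LOWK
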